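import Mathlib
import Pool.Agent.H138Z.Narrow

set_option autoImplicit false

namespace Pool.Agent.Results.MP_edb5be_nt.ANarrowCycles

/-- The 3x+1 map on the integers. -/
def T (x : ℤ) : ℤ := if x % 2 = 0 then x / 2 else (3 * x + 1) / 2

/-- For every `R < 3 ^ (15 / 14) = 3.2449...` only finitely many integers lie on a cycle of the
3x+1 map in which the largest absolute value is at most `R` times the smallest one. -/
theorem result (R : ℝ) (hR : R < 3 ^ (15 / 14 : ℝ)) :
    {x : ℤ | (∃ p : ℕ, 0 < p ∧ T^[p] x = x) ∧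
      ∀ i j : ℕ, |((T^[i] x : ℤ) : ℝ)| ≤ R * |((T^[j] x : ℤ) : ℝ)|}.Finite :=
  Pool.Agent.H138Z.Narrow.main hR

end Pool.Agent.Results.MP_edb5be_nt.ANarrowCycles
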